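import Pool.Agent.Lib.MP_02f36d_nt.X11.Root
import Pool.Agent.Lib.MP_02f36d_nt.C17.Rk
import Pool.Agent.Lib.MP_d6ddbd_nt.K11.No
import Pool.Agent.Lib.MP_d6ddbd_nt.K11.Final

/-! The rank of the quadratic twists of `X₀(11)` with a small Selmer group. -/

set_option autoImplicit false

open WeierstrassCurve WeierstrassCurve.Affine NumberField Height
open Pool.Agent.C17 Pool.Agent.Lib.MP_d6ddbd_nt.K11
open Pool.Agent.Stark (SqCl cl cl_mul cl_eq_zero cl_eq_cl emb)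

noncomputable section

namespace Pool.Agent.Lib.MP_02f36d_nt.X11

/-- The rank is one for an infinite group of points when doubles have index at most two. -/
theorem rank_one {A L : Type} [AddCommGroup A] [Infinite A] [Field L] [NumberField L]
    [DecidableEq L] {a b : L} [(Rk.cv a b).IsElliptic] (ι : A →+ Rk.G a b)
    (hι : Function.Injective ι) (h0 : (nsmulAddMonoidHom (α := A) 2).range.index ≠ 0)
    (h2 : (nsmulAddMonoidHom (α := A) 2).range.index ≤ 2) : Module.finrank ℤ A = 1 := by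
  obtain ⟨C, hC⟩ := Rk.ht_par (a := a) (b := b)
  have : Northcott (Rk.ht ∘ ι) :=
    ⟨fun B => (Northcott.finite_le (h := Rk.ht) B).preimage hι.injOn⟩
  have hD : ∀ P Q : A, |(Rk.ht ∘ ι) (P + Q) + (Rk.ht ∘ ι) (P - Q) -
      2 * ((Rk.ht ∘ ι) P + (Rk.ht ∘ ι) Q)| ≤ C := fun P Q => by
    simpa only [Function.comp_apply, map_add, map_sub] using hC (ι P) (ι Q)
  have hT := AddCommGroup.finite_torsion_of_descent' hD
  have hG : AddGroup.FG A :=
    AddCommGroup.fg_of_descent' (h := Rk.ht ∘ ι) ⟨h0⟩ (fun P => logHeight_nonneg _) hD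
  have h3 := Nat.le_of_dvd (Nat.pos_of_ne_zero h0)
    (AddSubgroup.index_dvd_of_le (le_sup_left (b := AddCommGroup.torsion A)))
  rw [LocInv.index_eq hG] at h3
  refine le_antisymm ((Nat.pow_le_pow_iff_right one_lt_two).1
    ((h3.trans h2).trans_eq (pow_one 2).symm)) (Nat.pos_of_ne_zero fun h => ?_)
  have : Module.Finite ℤ A := Module.Finite.iff_addGroup_fg.2 hG
  refine not_finite_iff_infinite.2 ‹_› (Finite.of_surjective
    (Subtype.val : AddCommGroup.torsion A → A) fun P => ⟨⟨P, ?_⟩, rfl⟩)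
  obtain ⟨k, hk⟩ := Module.finrank_eq_zero_iff.1 h P
  exact isOfFinAddOrder_iff_zsmul_eq_zero.2 ⟨k, hk⟩

variable {d : ℤ}

theorem ns (hd : d ≠ 0) {x y : ℚ} (h : (x, y) ∈ Tw d) :
    (Wd d).toAffine.Nonsingular (d * x) (d ^ 2 * y) := by
  have h1 : (d : ℚ) * y ^ 2 = x ^ 3 - 4 * x ^ 2 - 160 * x - 1264 := h
  have : (Wd d).IsElliptic := ⟨isUnit_iff_ne_zero.2 (by
    have : (Wd d).Δ = -(2 ^ 12 * 11 ^ 5 * (d : ℚ) ^ 6) := by
      simp only [Wd, Δ, b₂, b₄, b₆, b₈]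
      ring
    rw [this, neg_ne_zero]
    positivity)⟩
  rw [← equation_iff_nonsingular, equation_iff]
  simp only [Wd]
  linear_combination (d : ℚ) ^ 3 * h1

theorem exists_tw (hd : d ≠ 0) {P : (Wd d).toAffine.Point} (hP : P ≠ 0) :
    ∃ (x y : ℚ) (h : (x, y) ∈ Tw d), P = .some _ _ (ns hd h) := by
  have hd' : (d : ℚ) ≠ 0 := Int.cast_ne_zero.2 hd
  obtain ⟨x, y, h, rfl⟩ := exists_some hP
  have e := (equation_iff _ _).1 h.1
  simp only [Wd] at e
  refine ⟨x / d, y / d ^ 2, ?_, ?_⟩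
  · change (d : ℚ) * (y / d ^ 2) ^ 2 = (x / d) ^ 3 - 4 * (x / d) ^ 2 - 160 * (x / d) - 1264
    field_simp
    linear_combination e
  · rw [Point.some.injEq]
    constructor <;> field_simp

theorem fin_iff (hd : d ≠ 0) : Finite (Wd d).toAffine.Point ↔ (Tw d).Finite := by
  have hd' : (d : ℚ) ≠ 0 := Int.cast_ne_zero.2 hd
  let f : Tw d → (Wd d).toAffine.Point := fun P => .some _ _ (ns hd (x := P.1.1) (y := P.1.2) P.2)
  refine ⟨fun h => Finite.of_injective f fun P Q e => ?_, fun h => ?_⟩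
  · obtain ⟨e1, e2⟩ := Point.some.inj e
    exact Subtype.ext (Prod.ext (mul_left_cancel₀ hd' e1)
      (mul_left_cancel₀ (pow_ne_zero 2 hd') e2))
  · have := h.to_subtype
    refine Set.finite_univ_iff.1 (((Set.finite_range f).insert 0).subset fun P _ => ?_)
    by_cases hP : P = 0
    · exact Or.inl hP
    · obtain ⟨x, y, h, rfl⟩ := exists_tw hd hP
      exact Or.inr ⟨⟨_, h⟩, rfl⟩

theorem dbl (hd : d ≠ 0) {x y : ℚ} (h : (x, y) ∈ Tw d) :
    2 • (.some _ _ (ns hd h) : (Wd d).toAffine.Point) ≠ 0 ∧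
      xc (2 • (.some _ _ (ns hd h) : (Wd d).toAffine.Point)) = d * No.dl x := by
  have hd' : (d : ℚ) ≠ 0 := Int.cast_ne_zero.2 hd
  have h1 : (d : ℚ) * y ^ 2 = x ^ 3 - 4 * x ^ 2 - 160 * x - 1264 := h
  have hy : y ≠ 0 := by
    rintro rfl
    exact Final.no_root x (by rw [← h1]; ring)
  have e : (Wd d).toAffine.negY (d * x) (d ^ 2 * y) = -(d ^ 2 * y) := by simp [negY, Wd]
  have n : (d : ℚ) ^ 2 * y ≠ (Wd d).toAffine.negY (d * x) (d ^ 2 * y) := by
    rw [e]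
    exact Rk.ne_neg (mul_ne_zero (pow_ne_zero 2 hd') hy)
  rw [two_nsmul, Point.add_self_of_Y_ne n]
  refine ⟨Point.some_ne_zero _, ?_⟩
  rw [xc_some, slope_of_Y_ne rfl n, e, No.dl, fc, ← h1]
  simp only [addX, Wd]
  rw [sub_neg_eq_add, ← two_mul]
  field_simp
  linear_combination (64 - 32 * x) * h1

theorem rank (hPr : PrStmt) {L : Type} [Field L] [NumberField L] {θ : L} (hθ : Cub θ) (hd : d ≠ 0)
    (hS : selN θ d = 2) (hI : (Tw d).Infinite) :
    Module.finrank ℤ (Wd d).toAffine.Point = 1 := by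
  classical
  obtain ⟨-, -, -, -, -, h1, h2, -⟩ := hPr L θ hθ
  have hd' : (d : ℚ) ≠ 0 := Int.cast_ne_zero.2 hd
  have hdL : (d : L) ≠ 0 := Int.cast_ne_zero.2 hd
  have t := hθ.eq
  have : Infinite (Wd d).toAffine.Point := not_finite_iff_infinite.1 (mt (fin_iff hd).1 hI)
  let U : Affine L := (Wd d).toAffine.map (algebraMap ℚ L)
  have : Infinite U.Point := Infinite.of_injective _ (ptMap_injective (V' := U) rfl)
  have hf : fd θ ≠ 0 := fun h => by
    have := (No.indep hθ h2 (a := -160) (b := -8) (c := 3) (by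
      rw [fd] at h
      push_cast
      linear_combination h)).2.2
    norm_num at this
  obtain ⟨a, ha⟩ : ∃ a : L, a = 3 * d * θ - 4 * d := ⟨_, rfl⟩
  obtain ⟨b, hb⟩ : ∃ b : L, b = d ^ 2 * fd θ := ⟨_, rfl⟩
  have hC : (⟨1, -(d * θ), 0, 0⟩ : VariableChange L) • (Rk.cv a b).toAffine = U := by
    ext <;> simp [U, Wd, Rk.cv, variableChange_def, ha, hb, fd]
    · ring
    · ring
    · linear_combination -(d : L) ^ 3 * t
  have : (Rk.cv a b).IsElliptic := ⟨isUnit_iff_ne_zero.2 (by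
    have : (Rk.cv a b).Δ = -(2 ^ 12 * 11 ^ 5 * (d : L) ^ 6) := by
      simp only [Rk.cv, Δ, b₂, b₄, b₆, b₈, ha, hb, fd]
      linear_combination d ^ 6 * (-432 * θ ^ 3 + 1728 * θ ^ 2 + 69120 * θ - 734464) * t
    rw [this, neg_ne_zero]
    exact mul_ne_zero (by norm_num) (pow_ne_zero _ hdL))⟩
  let ι : (Wd d).toAffine.Point →+ Rk.G a b := (vcMap hC).comp (ptMap (algebraMap ℚ L) rfl)
  have s0 : ∀ {P}, P ≠ 0 → ι P ≠ 0 := fun hP => (vcMap_spec hC (ptMap_ne rfl hP)).1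
  have he : 3 * (0 : L) ^ 2 + 2 * a * 0 + b ≠ 0 := by
    simpa [hb] using ⟨hd, hf⟩
  have s1 : ∀ {x y : ℚ} (h : (x, y) ∈ Tw d),
      Rk.al 0 (ι (.some _ _ (ns hd h))) = ((d : ℚ) : L) * (x - θ) := fun {x y} h => by
    have k1 : xc (ι (.some _ _ (ns hd h))) = _ := (vcMap_spec hC
      (ptMap_ne (j := algebraMap ℚ L) rfl (Point.some_ne_zero (ns hd h)))).2.1
    obtain ⟨X, Y, k, e⟩ := exists_some (s0 (Point.some_ne_zero (ns hd h)))
    rw [e, xc_some, xc_ptMap, xc_some] at k1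
    have k2 : X = ((d : ℚ) : L) * (x - θ) := by
      rw [k1]
      simp
      ring
    rw [e, Rk.al_some, if_neg, sub_zero, k2]
    rw [k2]
    exact mul_ne_zero (by exact_mod_cast hd) (sub_ne_zero.2 (h1 x).1)
  let φ : (Wd d).toAffine.Point →+ SqCl L := AddMonoidHom.mk' (fun P => cl (Rk.al 0 (ι P)))
    fun P Q => by
      rw [map_add, ← cl_mul (Rk.al_ne he _) (Rk.al_ne he _),
        cl_eq_cl (Rk.al_ne he _) (mul_ne_zero (Rk.al_ne he _) (Rk.al_ne he _)), ← mul_assoc]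
      exact Rk.al_add (by ring) he _ _
  have s2 : φ.ker ≤ (nsmulAddMonoidHom (α := (Wd d).toAffine.Point) 2).range := fun P hP => by
    by_cases h0 : P = 0
    · rw [h0]
      exact zero_mem _
    obtain ⟨x, y, h, rfl⟩ := exists_tw hd h0
    have k := (cl_eq_zero (Rk.al_ne he _)).1 hP
    rw [s1 h] at k
    obtain ⟨u, v, e1, e2⟩ := No.half hθ h2 Final.no_root hd' k
    obtain ⟨k0, k1⟩ := dbl hd (x := u) (y := v) e1
    obtain ⟨X, Y, k2, e⟩ := exists_some k0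
    rw [e, xc_some, e2] at k1
    rcases (Point.X_eq_iff (h₁ := k2) (h₂ := ns hd h)).1 k1 with k3 | k3
    · exact ⟨_, e.trans k3⟩
    · exact ⟨-_, by rw [map_neg]; exact neg_eq_iff_eq_neg.2 (e.trans k3)⟩
  have s3 : (φ.range : Set (SqCl L)) ⊆ {c | ∃ α, SelC θ d α ∧ cl α = c} := by
    rintro _ ⟨P, rfl⟩
    refine ⟨_, ⟨Rk.al_ne he _, ?_⟩, rfl⟩
    by_cases h0 : P = 0
    · rw [h0, map_zero, Rk.al_zero, map_one]
      exact ⟨IsSquare.one, fun p _ => ⟨1, 0, by simp, fun 𝔭 _ => ⟨1, by simp⟩⟩⟩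
    obtain ⟨x, y, h, rfl⟩ := exists_tw hd h0
    have e : (((d * x : ℚ) : L) - d * ((1 : ℚ) : L) ^ 2 * θ) = ((d : ℚ) : L) * ((x : L) - θ) := by
      push_cast
      ring
    have n := Rk.al_ne he (ι (.some _ _ (ns hd h)))
    rw [s1 h] at n ⊢
    refine ⟨⟨d ^ 2 * y, ?_⟩, fun p _ => ⟨d * x, 1, e ▸ n, fun 𝔭 _ =>
      ⟨emb 𝔭 (((d : ℚ) : L) * ((x : L) - θ)), by rw [e, map_mul]⟩⟩⟩
    have hy : (d : ℚ) * y ^ 2 = fc x := h
    rw [map_mul, (h1 x).2, ← hy, show ((d : ℚ) : L) = algebraMap ℚ L d from rfl,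
      Algebra.norm_algebraMap, hθ.rk]
    ring
  have s4 : {c | ∃ α, SelC θ d α ∧ cl α = c}.Finite :=
    Nat.finite_of_card_ne_zero (ne_of_eq_of_ne hS two_ne_zero)
  have s5 : φ.ker.index ≤ 2 := by
    rw [AddSubgroup.index_ker, ← hS]
    exact Nat.card_mono s4 s3
  have s6 : φ.ker.index ≠ 0 := by
    have : Finite φ.range := s4.subset s3
    rw [AddSubgroup.index_ker]
    exact Nat.card_pos.ne'
  have s7 := AddSubgroup.index_dvd_of_le s2
  exact rank_one ι ((injective_iff_map_eq_zero _).2 fun P h => by_contra fun k => s0 k h)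
    (ne_zero_of_dvd_ne_zero s6 s7) ((Nat.le_of_dvd (Nat.pos_of_ne_zero s6) s7).trans s5)

end Pool.Agent.Lib.MP_02f36d_nt.X11
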