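import Pool.Agent.Lib.MP_02f36d_nt.TW.Root

/-! The root number of the quadratic twists of `X₀(11)`. -/

set_option autoImplicit false

open WeierstrassCurve IsDedekindDomain Pool.Agent.Lib.MP_02f36d_nt.TW

noncomputable section

namespace Pool.Agent.Lib.MP_02f36d_nt.X11

/-- The twist by `d`. -/
def Wd (d : ℤ) : WeierstrassCurve ℚ := ⟨0, -4 * d, 0, -160 * d ^ 2, -1264 * d ^ 3⟩

variable {p : ℕ} [hp : Fact p.Prime] {d : ℤ}

open Polynomial in
theorem quad_iff {F : Type*} [Field F] {a b c : F} (h2 : (2 : F) ≠ 0) (ha : a ≠ 0) :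
    Splits (C a * X ^ 2 + C b * X - C c) ↔ IsSquare (b ^ 2 + 4 * a * c) := by
  refine ⟨fun h => ?_, fun ⟨s, h⟩ => splits_quad h2 ha (h.trans (sq s).symm)⟩
  obtain ⟨x, hx⟩ := h.exists_eval_eq_zero (by
    rw [sub_eq_add_neg, ← C_neg, degree_quadratic ha]
    decide)
  simp only [eval_sub, eval_add, eval_mul, eval_pow, eval_C, eval_X] at hx
  exact ⟨2 * a * x + b, by linear_combination -4 * a * hx⟩

theorem dvd_11 (h : (p : ℤ) ∣ 11) : p = 11 :=
  (Nat.prime_dvd_prime_iff_eq hp.1 (by norm_num)).1 (by exact_mod_cast h)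

theorem model (hs : Squarefree d) (h4 : d % 4 = 1) (hc : ¬ (11 : ℤ) ∣ d) (p : ℕ)
    [hp : Fact p.Prime] : ∃ u : ℚ_[p], ‖u‖ = 1 ∧
      (minModel (Wd d) p).Δ = u ^ 12 * (-11 ^ 5 * d ^ 6 : ℤ) ∧
      (minModel (Wd d) p).c₄ = u ^ 4 * (496 * d ^ 2 : ℤ) ∧
      (minModel (Wd d) p).c₆ = u ^ 6 * (20008 * d ^ 3 : ℤ) := by
  obtain ⟨k, hk⟩ : ∃ k : ℤ, d = 4 * k + 1 := ⟨d / 4, by omega⟩
  let V : WeierstrassCurve ℤ :=
    ⟨0, -d, 1, -10 * d ^ 2, -(1264 * k ^ 3 + 948 * k ^ 2 + 237 * k + 20)⟩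
  have e1 : V.Δ = -11 ^ 5 * d ^ 6 := by simp only [V, Δ, b₂, b₄, b₆, b₈, hk]; ring
  have e2 : V.c₄ = 496 * d ^ 2 := by simp only [V, c₄, b₂, b₄, hk]; ring
  have e3 : V.c₆ = 20008 * d ^ 3 := by simp only [V, c₆, b₂, b₄, b₆, hk]; ring
  rw [← e1, ← e2, ← e3]
  refine min_unit V _ ⟨Units.mk0 2 two_ne_zero, 0, 0, 4⟩ ?_ fun hd => ?_
  · have hk' : (d : ℚ_[p]) = 4 * k + 1 := by exact_mod_cast hk
    ext <;> simp [V, Wd, baseChange, variableChange_def, hk'] <;> ring
  · rw [e1, neg_mul, dvd_neg] at hd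
    have hq : Prime (p : ℤ) := Nat.prime_iff_prime_int.1 hp.1
    by_cases h11 : (p : ℤ) ∣ 11
    · obtain rfl := dvd_11 h11
      exact absurd (hq.pow_dvd_of_dvd_mul_right 12 (fun h => hc (hq.dvd_of_dvd_pow h)) hd)
        (by norm_num)
    · have h6 := hq.pow_dvd_of_dvd_mul_left 12 (fun h => h11 (hq.dvd_of_dvd_pow h)) hd
      rw [show (p : ℤ) ^ 12 = (p * p) ^ 6 by ring, Int.pow_dvd_pow_iff (by norm_num)] at h6
      exact hq.not_isUnit (hs p h6)

theorem good (hs : Squarefree d) (h4 : d % 4 = 1) (hc : ¬ (11 : ℤ) ∣ d) (h1 : p ≠ 11)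
    (h2 : ¬ (p : ℤ) ∣ d) : ¬ vp p (minModel (Wd d) p).Δ < 1 := by
  obtain ⟨u, hu, e, -⟩ := model hs h4 hc p
  have hq : Prime (p : ℤ) := Nat.prime_iff_prime_int.1 hp.1
  rw [e, vp_int hu, neg_mul, dvd_neg, hq.dvd_mul]
  rintro (h | h)
  · exact h1 (dvd_11 (hq.dvd_of_dvd_pow h))
  · exact h2 (hq.dvd_of_dvd_pow h)

theorem root_add (hs : Squarefree d) (h4 : d % 4 = 1) (hc : ¬ (11 : ℤ) ∣ d) (h2 : (p : ℤ) ∣ d) :
    localRoot (Wd d) p = jacobiSym (-1) p := by
  obtain ⟨u, hu, e1, e2, -⟩ := model hs h4 hc p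
  have hq : Prime (p : ℤ) := Nat.prime_iff_prime_int.1 hp.1
  have a1 : vp p (minModel (Wd d) p).Δ < 1 := by
    rw [e1, vp_int hu]
    exact (dvd_pow h2 (by norm_num)).mul_left _
  have a2 : vp p (minModel (Wd d) p).c₄ < 1 := by
    rw [e2, vp_int hu]
    exact (dvd_pow h2 (by norm_num)).mul_left _
  have a3 : (minModel (Wd d) p).HasAdditiveReduction ℤ_[p] :=
    { toIsMinimal := inferInstanceAs (IsMinimal ℤ_[p] (minimal _ _))
      badReduction := a1
      additiveReduction := a2 }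
  have a4 : (minModel (Wd d) p).Δ.valuation = 6 := by
    obtain ⟨m, rfl⟩ := h2
    have b1 : ¬ (p : ℤ) ∣ m := fun h => hq.not_isUnit (hs p (mul_dvd_mul_left _ h))
    have b2 : ¬ (p : ℤ) ∣ (11 : ℤ) := fun h => hc (by
      obtain rfl := dvd_11 h
      exact dvd_mul_right _ _)
    have b3 : ‖(minModel (Wd (p * m)) p).Δ‖ = (p : ℝ) ^ (-6 : ℤ) := by
      have : ((-11 ^ 5 * ((p : ℤ) * m) ^ 6 : ℤ) : ℚ_[p]) =
          -(((11 : ℤ) : ℚ_[p]) ^ 5 * ((m : ℤ) : ℚ_[p]) ^ 6 * (p : ℚ_[p]) ^ (6 : ℤ)) := by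
        rw [zpow_ofNat]; push_cast; ring
      rw [e1, this]
      simp only [norm_mul, norm_neg, norm_pow, hu, norm_unit b1, norm_unit b2, Padic.norm_p_zpow,
        one_pow, one_mul]
    have b4 : (1 : ℝ) < p := by exact_mod_cast hp.1.one_lt
    rw [Padic.norm_eq_zpow_neg_valuation (norm_pos_iff.1 (by rw [b3]; positivity))] at b3
    exact neg_injective (zpow_right_injective₀ (by linarith) b4.ne' b3)
  rw [localRoot, if_neg fun h => a3.not_hasMultiplicativeReduction _ h.toHasMultiplicativeReduction,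
    if_neg (not_not.2 a3), a4]
  simp

theorem root_11 (hs : Squarefree d) (h4 : d % 4 = 1) (hc : ¬ (11 : ℤ) ∣ d)
    [Fact (Nat.Prime 11)] : localRoot (Wd d) 11 = -jacobiSym d 11 := by
  obtain ⟨u, hu, e1, e2, e3⟩ := model hs h4 hc 11
  have hq : Prime (11 : ℤ) := by norm_num
  have hm : IsMinimal ℤ_[11] (minModel (Wd d) 11) :=
    inferInstanceAs (IsMinimal ℤ_[11] (minimal _ _))
  have a1 : vp 11 (minModel (Wd d) 11).Δ < 1 := by
    rw [e1, vp_int hu]
    exact Dvd.dvd.mul_right (by norm_num) _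
  have a2 : ¬ vp 11 (minModel (Wd d) 11).c₄ < 1 := by
    rw [e2, vp_int hu]
    intro h
    rcases hq.dvd_mul.1 h with h | h
    · norm_num at h
    · exact hc (hq.dvd_of_dvd_pow h)
  have key : (minModel (Wd d) 11).HasSplitMultiplicativeReduction ℤ_[11] ↔
      IsSquare (d : ZMod 11) := by
    generalize minModel (Wd d) 11 = M at *
    have c1 := integralModel_c₄_eq ℤ_[11] M
    have c2 := integralModel_c₆_eq ℤ_[11] M
    refine Iff.trans ⟨fun h => h.splitMultiplicativeReduction, fun h =>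
      { toIsMinimal := hm
        badReduction := a1
        multiplicativeReduction := le_antisymm
          (c1 ▸ HeightOneSpectrum.valuation_le_one _ _) (not_lt.1 a2)
        splitMultiplicativeReduction := h }⟩ ?_
    rw [← c1] at a2
    generalize integralModel ℤ_[11] M = I at *
    let φ := algebraMap ℤ_[11] (IsLocalRing.ResidueField ℤ_[11])
    have d0 : (11 : IsLocalRing.ResidueField ℤ_[11]) = 0 := by
      rw [← map_ofNat φ]
      exact (IsLocalRing.residue_eq_zero_iff _).2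
        (PadicInt.mem_nonunits.2 (Padic.norm_p_lt_one (p := 11)))
    have d1 : φ I.c₄ ≠ 0 := fun h => a2 ((HeightOneSpectrum.valuation_lt_one_iff_mem _ _).2
      ((IsLocalRing.residue_eq_zero_iff _).1 h))
    obtain ⟨w, rfl⟩ := exists_int hu.le
    have d2 : I.c₄ = w ^ 4 * (496 * d ^ 2 : ℤ) := IsFractionRing.injective ℤ_[11] ℚ_[11] (by
      rw [c1, e2, map_mul, map_pow, map_intCast])
    have d3 : I.c₆ = w ^ 6 * (20008 * d ^ 3 : ℤ) := IsFractionRing.injective ℤ_[11] ℚ_[11] (by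
      rw [c2, e3, map_mul, map_pow, map_intCast])
    have d4 : (I.a₁ * I.c₄) ^ 2 + 4 * I.c₄ * (54 * I.b₆ - 3 * I.b₂ * I.b₄ + I.a₂ * I.c₄) =
        -(I.c₄ * I.c₆) := by
      simp only [c₄, c₆, b₂, b₄, b₆]
      ring
    simp only [Polynomial.map_sub, Polynomial.map_add, Polynomial.map_mul, Polynomial.map_pow,
      Polynomial.map_C, Polynomial.map_X]
    rw [quad_iff (fun h => one_ne_zero' (IsLocalRing.ResidueField ℤ_[11])
      (by linear_combination 6 * h - d0)) d1]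
    have d5 := congrArg φ d4
    rw [map_add, map_pow, map_mul φ (4 * _), map_mul φ 4, map_ofNat] at d5
    have d6 : φ (-(I.c₄ * I.c₆)) = (φ w ^ 5 * d ^ 2) ^ 2 * d := by
      rw [d2, d3]
      simp only [map_neg, map_mul, map_pow, map_intCast]
      push_cast
      linear_combination -902179 * φ w ^ 10 * d ^ 5 * d0
    have d7 : (φ w ^ 5 * d ^ 2 : IsLocalRing.ResidueField ℤ_[11]) ≠ 0 := by
      rw [d2, map_mul, map_pow, map_intCast] at d1
      push_cast at d1
      simp only [mul_ne_zero_iff] at d1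
      exact mul_ne_zero (pow_ne_zero _ (ne_zero_pow (by norm_num) d1.1)) d1.2.2
    rw [d5, d6]
    generalize (φ w ^ 5 * d ^ 2 : IsLocalRing.ResidueField ℤ_[11]) = s at d7
    have d8 : IsSquare (d : IsLocalRing.ResidueField ℤ_[11]) ↔ IsSquare (d : ZMod 11) :=
      ⟨fun h => by simpa using h.map (PadicInt.residueField (p := 11)),
        fun h => by simpa using h.map (PadicInt.residueField (p := 11)).symm⟩
    rw [← d8]
    refine ⟨fun ⟨t, ht⟩ => ⟨t / s, ?_⟩, fun ⟨t, ht⟩ => ⟨s * t, by rw [ht]; ring⟩⟩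
    field_simp
    linear_combination ht
  have h0 : (d : ZMod 11) ≠ 0 := fun h => hc ((ZMod.intCast_zmod_eq_zero_iff_dvd d 11).1 h)
  rw [localRoot, ← jacobiSym.legendreSym.to_jacobiSym 11 d]
  by_cases h : IsSquare (d : ZMod 11)
  · rw [if_pos (key.2 h), (legendreSym.eq_one_iff 11 h0).2 h]
  · rw [if_neg (mt key.1 h), if_pos fun k => a2 k.additiveReduction,
      (legendreSym.eq_neg_one_iff 11).2 h, neg_neg]

theorem root (hs : Squarefree d) (h4 : d % 4 = 1) (h3 : ¬ (3 : ℤ) ∣ d) (hc : ¬ (11 : ℤ) ∣ d) :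
    HasRootNumber (Wd d) (jacobiSym (-11) d.natAbs) := by
  refine ⟨fun h => good hs h4 hc (by norm_num) (by omega) h.badReduction,
    fun h => good hs h4 hc (by norm_num) h3 h.badReduction, ?_⟩
  have ho : Odd d.natAbs := Nat.odd_iff.2 (by omega)
  have hn : Squarefree d.natAbs := Int.squarefree_natAbs.2 hs
  let g : ℕ → ℤ := fun q =>
    if q = 11 then -jacobiSym d 11 else if q ∣ d.natAbs then jacobiSym (-1) q else 1
  have e1 : ∀ q : Nat.Primes, @localRoot (Wd d) q ⟨q.2⟩ = g q := by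
    rintro ⟨q, hq⟩
    have : Fact q.Prime := ⟨hq⟩
    simp only [g]
    split_ifs with a1 a2
    · subst a1
      exact root_11 hs h4 hc
    · exact root_add hs h4 hc (Int.natCast_dvd.2 a2)
    · have := good hs h4 hc a1 (mt Int.natCast_dvd.1 a2)
      rw [localRoot, if_neg fun h => this h.badReduction, if_pos fun h => this h.badReduction]
  have e2 : ∏ᶠ q : Nat.Primes, g q = ∏ q ∈ insert 11 d.natAbs.primeFactors, g q := by
    refine (finprod_subtype_eq_finprod_cond (f := g) Nat.Prime).trans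
      (finprod_cond_eq_prod_of_cond_iff g fun {q} hq => ?_)
    rw [Finset.mem_insert, Nat.mem_primeFactors]
    simp only [g] at hq
    split_ifs at hq with a1 a2
    · subst a1
      norm_num
    · simp [a1, a2, hs.ne_zero]
    · exact absurd rfl hq
  have h11 : ¬ 11 ∣ d.natAbs := mt Int.natCast_dvd.2 hc
  have e3 : ∏ q ∈ d.natAbs.primeFactors, g q = ZMod.χ₄ d.natAbs := by
    have : ∀ q ∈ d.natAbs.primeFactors, g q = ZMod.χ₄ q := fun q hq => by
      have a1 := Nat.dvd_of_mem_primeFactors hq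
      simp only [g]
      rw [if_neg fun h : q = 11 => h11 (h ▸ a1), if_pos a1,
        jacobiSym.at_neg_one (ho.of_dvd_nat a1)]
    rw [Finset.prod_congr rfl this, ← map_prod, ← Nat.cast_prod,
      Nat.prod_primeFactors_of_squarefree hn]
  rw [finprod_congr e1, e2, Finset.prod_insert fun h => h11 (Nat.dvd_of_mem_primeFactors h), e3,
    jacobiSym.neg _ ho]
  simp only [g, if_true, neg_mul, neg_neg]
  rw [mul_comm]
  congr 1
  rcases Int.natAbs_eq d with e | e
  · conv_rhs => rw [e]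
    exact (jacobiSym.quadratic_reciprocity_one_mod_four (a := d.natAbs) (b := 11) (by omega)
      (by decide)).symm
  · conv_rhs => rw [e]
    rw [jacobiSym.neg _ (by decide), ZMod.χ₄_nat_three_mod_four (by norm_num), neg_one_mul]
    exact jacobiSym.quadratic_reciprocity_three_mod_four (a := 11) (b := d.natAbs) (by norm_num)
      (by omega)

end Pool.Agent.Lib.MP_02f36d_nt.X11
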