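import Pool.Agent.Lib.MP_02f36d_nt.X11.Full
import Pool.Agent.Lib.MP_d6ddbd_nt.KI.Bas

/-! The rank of a twist of `X₀(11)` from the internal bound on the Selmer classes. -/

set_option autoImplicit false

open WeierstrassCurve WeierstrassCurve.Affine
open Pool.Agent.C17 Pool.Agent.Lib.MP_d6ddbd_nt Pool.Agent.Lib.MP_d6ddbd_nt.K11
open Pool.Agent.Lib.MP_02f36d_nt.TW (HasRootNumber)
open scoped Classical

noncomputable section

namespace Pool.Agent.Lib.MP_02f36d_nt.X11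

variable {d : ℤ} {k : ℕ}

/-- The Kummer map into the internal classes. -/
theorem kummerB (hd : d ≠ 0) (k : ℕ) : ∃ x : (Wd d).toAffine.Point → G → Pt,
    (∀ P, KI.Sel d k ∅ (x P)) ∧ ∀ P P', KI.Cb d (x P - x P') → ∃ R, 2 ^ k • R = P - P' := by
  obtain ⟨e, he⟩ := ex_e
  obtain ⟨ψ, p1, p2, p3⟩ := ex_psi hd (KI.rt_sq d) (hcq d) e he
  let b : (Wd d).toAffine.Point →+ Pts (Wd d) Qb := ptMap (algebraMap ℚ Qb) rfl
  have b1 : ∀ (s : Qb ≃ₐ[ℚ] Qb) P, Point.map (s : Qb →ₐ[ℚ] Qb) (b P) = b P := fun s P => by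
    rcases P with _ | ⟨x, y, h⟩
    · rfl
    · exact pt_ext (Point.some_ne_zero _) (Point.some_ne_zero _) (s.commutes x) (s.commutes y)
  have b2 : ∀ P σ, KI.tw d σ (ψ (b P)) = ψ (b P) := fun P σ => by
    obtain ⟨s, hs⟩ := res_e e σ
    exact (p3 s σ hs _).symm.trans (by rw [b1])
  choose S hS using fun P => KI.ex_div k (ψ (b P))
  have aS : ∀ P, AlgP (S P) := fun P => KI.alg_of_pow (k := k) (hS P ▸ (p2 _).2 ⟨_, rfl⟩)
  refine ⟨fun P σ => KI.tw d σ (S P) - S P, fun P => KI.sel_pt (aS P) fun σ => by rw [hS, b2],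
    fun P P' ⟨T, j, h1, h2⟩ => ?_⟩
  have h3 : ∀ σ, KI.tw d σ (S P - S P' - T) = S P - S P' - T := fun σ => by
    have := h2 σ
    rw [KI.tw_sub, KI.tw_sub]
    simp only [Pi.sub_apply] at this
    linear_combination (norm := module) this
  obtain ⟨Q, hQ⟩ := (p2 _).1 (KI.alg_sub (KI.alg_sub (aS P) (aS P')) (KI.alg_tor h1))
  have h4 : ∀ s : Qb ≃ₐ[ℚ] Qb, Point.map (s : Qb →ₐ[ℚ] Qb) Q = Q := fun s => by
    obtain ⟨σ, hσ⟩ := conj_e e (e.comp (s : Qb →ₐ[ℚ] Qb))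
    refine p1 ((p3 s σ hσ Q).trans ?_)
    rw [hQ]
    exact h3 σ
  obtain ⟨x, hx⟩ := (InfiniteGalois.mem_range_algebraMap_iff_fixed (k := ℚ) _).2
    fun s => ((xc_map _ _).1.symm.trans (congrArg xc (h4 s)))
  obtain ⟨y, hy⟩ := (InfiniteGalois.mem_range_algebraMap_iff_fixed (k := ℚ) _).2
    fun s => ((xc_map _ _).2.symm.trans (congrArg yc (h4 s)))
  obtain ⟨R, hR⟩ := mem_range_ptMap (j := algebraMap ℚ Qb) (V := (Wd d).toAffine) rfl hx.symm hy.symm
  have h5 : ψ (b (P - P' - 2 ^ k • R)) = 2 ^ k • T := by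
    rw [map_sub, map_sub, map_sub, map_sub, map_nsmul, map_nsmul, show b R = Q from hR, hQ, ← hS,
      ← hS]
    module
  have h6 : 2 ^ k • T = 0 := KI.inv0 (c := d) (k := j) (by rw [smul_comm, h1, nsmul_zero])
    fun σ => by rw [← h5, b2]
  refine ⟨R, (sub_eq_zero.1 (ptMap_injective (j := algebraMap ℚ Qb) rfl (p1 ?_))).symm⟩
  exact (h5.trans h6).trans ((map_zero ψ).symm.trans (congrArg ψ (map_zero b).symm))

theorem rankB (hd : d ≠ 0) (h : KI.Bd d) (hI : (Tw d).Infinite) :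
    Module.Finite ℤ (Wd d).toAffine.Point ∧ Module.finrank ℤ (Wd d).toAffine.Point = 1 := by
  have : Infinite (Wd d).toAffine.Point := not_finite_iff_infinite.1 (mt (fin_iff hd).1 hI)
  obtain ⟨k, h⟩ := h
  obtain ⟨x, x1, x2⟩ := kummerB hd k
  let A := (Wd d).toAffine.Point ⧸ (nsmulAddMonoidHom (α := (Wd d).toAffine.Point) (2 ^ k)).range
  have i : ∀ a a' : A, KI.Cb d (x a.out - x a'.out) → a = a' := fun a a' e => by
    rw [← a.out_eq, ← a'.out_eq]
    exact QuotientAddGroup.eq_iff_sub_mem.2 (x2 _ _ e)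
  have h1 : ∀ s : Finset A, s.card < 4 ^ k := fun s => by
    rw [← Finset.card_image_of_injective s (f := fun a => x a.out) fun a a' e =>
      i a a' ((KI.cb_zero d).of_eq (sub_eq_zero.2 e).symm)]
    refine h _ (fun y hy => ?_) fun y hy y' hy' e => ?_
    · obtain ⟨a, -, rfl⟩ := Finset.mem_image.1 hy
      exact x1 _
    · obtain ⟨a, -, rfl⟩ := Finset.mem_image.1 hy
      obtain ⟨a', -, rfl⟩ := Finset.mem_image.1 hy'
      rw [i a a' e]
  have h2 : Finite A := by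
    by_contra hn
    have := not_finite_iff_infinite.1 hn
    obtain ⟨s, hs⟩ := Infinite.exists_subset_card_eq A (4 ^ k)
    exact absurd (h1 s) (by omega)
  have h3 : (nsmulAddMonoidHom (α := (Wd d).toAffine.Point) (2 ^ k)).range.index < 4 ^ k := by
    have := Fintype.ofFinite A
    have h4 := h1 Finset.univ
    rwa [Finset.card_univ, ← Nat.card_eq_fintype_card] at h4
  have h4 : (nsmulAddMonoidHom (α := (Wd d).toAffine.Point) (2 ^ k)).range.index ≠ 0 :=
    AddSubgroup.index_ne_zero_of_finite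
  obtain ⟨k, rfl⟩ := Nat.exists_eq_succ_of_ne_zero (n := k) fun e => by
    rw [e] at h3 h4
    omega
  obtain ⟨h5, h6⟩ := mordell hd (ne_zero_of_dvd_ne_zero h4 (AddSubgroup.index_dvd_of_le (by
    rintro _ ⟨P, rfl⟩
    exact ⟨2 ^ k • P, by simp [pow_succ', mul_smul]⟩)))
  have h7 := (Nat.le_of_dvd (Nat.pos_of_ne_zero h4) (pow_le _)).trans_lt h3
  rw [show 4 ^ k.succ = (2 ^ k.succ) ^ 2 by rw [← pow_mul, mul_comm, pow_mul]; rfl,
    Nat.pow_lt_pow_iff_right (Nat.one_lt_two_pow k.succ_ne_zero)] at h7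
  exact ⟨h5, by omega⟩

/-- The rank in terms of the Jacobi symbol. -/
theorem fullB (hM : KI.MainStmt) (hd : Fam d) (h : KI.Bd d) :
    Module.Finite ℤ (Wd d).toAffine.Point ∧ Module.finrank ℤ (Wd d).toAffine.Point ≤ 1 ∧
      (-1) ^ Module.finrank ℤ (Wd d).toAffine.Point = jacobiSym (-11) d.natAbs := by
  have m := hM d hd h
  by_cases hI : (Tw d).Infinite
  · obtain ⟨a, b⟩ := rankB hd.sf.ne_zero h hI
    rw [b, pow_one]
    exact ⟨a, le_rfl, (m.1 hI).symm⟩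
  · have := (fin_iff hd.sf.ne_zero).2 (Set.not_infinite.1 hI)
    have a : Module.finrank ℤ (Wd d).toAffine.Point = 0 :=
      Module.finrank_eq_zero_iff_isTorsion.2 (isAddTorsion_iff_isTorsion_int.1
        isAddTorsion_of_finite)
    have b := (jacobiSym.eq_one_or_neg_one (a := -11) (b := d.natAbs) (by
      rw [Int.neg_gcd]
      exact (Nat.Prime.coprime_iff_not_dvd (p := 11) (by norm_num)).2
        fun e => hd.n11 (Int.natCast_dvd.2 (by rwa [Int.natAbs_natCast] at e)))).resolve_right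
          (mt m.2 hI)
    rw [a, pow_zero]
    exact ⟨inferInstance, zero_le_one, b.symm⟩

theorem parB (hM : KI.MainStmt) (hd : Fam d) (h3 : ¬ (3 : ℤ) ∣ d) (h : KI.Bd d) :
    Module.Finite ℤ (Wd d).toAffine.Point ∧ Module.finrank ℤ (Wd d).toAffine.Point ≤ 1 ∧
      HasRootNumber (Wd d) ((-1) ^ Module.finrank ℤ (Wd d).toAffine.Point) :=
  let ⟨a, b, c⟩ := fullB hM hd h
  ⟨a, b, c ▸ root hd.sf hd.m4 h3 hd.n11⟩

end Pool.Agent.Lib.MP_02f36d_nt.X11
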