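import Pool.Agent.Lib.MP_02f36d_nt.X11.Brg
import Pool.Agent.Lib.MP_02f36d_nt.X11.Rank
import Pool.Agent.Lib.MP_d6ddbd_nt.KI.Stmt

/-! The parity conjecture for the twists of `X₀(11)` with Selmer corank at most one. -/

set_option autoImplicit false

open WeierstrassCurve WeierstrassCurve.Affine Height
open Pool.Agent.C17 Pool.Agent.Lib.MP_d6ddbd_nt Pool.Agent.Lib.MP_d6ddbd_nt.K11
open Pool.Agent.Lib.MP_02f36d_nt.TW (HasRootNumber)
open scoped Classical

noncomputable section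

namespace Pool.Agent.Lib.MP_02f36d_nt.X11

variable {d : ℤ} {k : ℕ}

theorem hcq (d : ℤ) (σ : G) : σ (KI.rt d) = KI.cq d σ * KI.rt d := by
  rw [KI.cq]
  split_ifs with h
  · simpa using h
  · simpa using (V2.sq_cases σ (KI.rt_sq d)).resolve_left h

/-- The bound on the Selmer group passes to the internal classes. -/
theorem card_lt (hd : d ≠ 0) (h : (Sel (Wd d) (2 ^ k)).encard < 4 ^ k) (s : Finset (G → Pt))
    (a : ∀ x ∈ s, KI.Sel d k ∅ x) (b : ∀ x ∈ s, ∀ y ∈ s, KI.Cb d (x - y) → x = y) :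
    s.card < 4 ^ k := by
  obtain ⟨Φ, h1, h2⟩ := bridge hd (KI.rt_sq d) (hcq d) k
  have h3 : ∀ x, KI.Sel d k ∅ x → ISel (KI.cq d) k x := fun x hx =>
    ⟨hx.cy.tor, hx.cy.mul, hx.cy.fin, fun v O hv hO => by
      obtain ⟨S, a, b⟩ := hx.kl v O hv (Finset.notMem_empty v) hO
      exact ⟨S, a, fun n σ c => b σ ⟨n, c⟩⟩⟩
  have h4 := (Set.encard_le_encard_of_injOn (s := (s : Set (G → Pt))) (f := Φ)
    (fun x hx => h1 x (h3 x (a x hx))) fun x hx y hy e => by
      obtain ⟨T, c1, c2⟩ := h2 x y (h3 x (a x hx)) (h3 y (a y hy)) e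
      exact b x hx y hy ⟨T, k, c1, c2⟩).trans_lt h
  rw [Set.encard_coe_eq_coe_finsetCard] at h4
  exact_mod_cast h4

theorem bd_of (hd : d ≠ 0) (h : (Sel (Wd d) (2 ^ k)).encard < 4 ^ k) : KI.Bd d :=
  ⟨k, card_lt hd h⟩

/-- The Kummer map. -/
theorem kummer (W : WeierstrassCurve ℚ) (n : ℕ) (hn : ∀ P : Pts W Qb, ∃ S, n • S = P) :
    (Set.univ : Set (W.toAffine.Point ⧸ (nsmulAddMonoidHom (α := W.toAffine.Point) n).range)).encard
      ≤ (Sel W n).encard := by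
  let b : W.toAffine.Point →+ Pts W Qb := ptMap (algebraMap ℚ Qb) rfl
  have b1 : ∀ (s : Qb ≃ₐ[ℚ] Qb) P, Point.map (s : Qb →ₐ[ℚ] Qb) (b P) = b P := fun s P => by
    rcases P with _ | ⟨x, y, h⟩
    · rfl
    · exact pt_ext (Point.some_ne_zero _) (Point.some_ne_zero _) (s.commutes x) (s.commutes y)
  choose S hS using fun P => hn (b P)
  refine Set.encard_le_encard_of_injOn (f := fun c => Quot.mk _
    fun s : Qb ≃ₐ[ℚ] Qb => Point.map (s : Qb →ₐ[ℚ] Qb) (S c.out) - S c.out)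
    (fun c _ => ⟨_, ⟨⟨?_, fun s => ?_, fun s t => ?_⟩, loc_of fun _ => ⟨_, fun _ _ _ => rfl⟩,
      fun p _ => loc_of fun _ => ⟨_, fun _ _ _ => rfl⟩⟩, rfl⟩) fun c _ c' _ e => ?_
  · refine lc_of {xc (S c.out), yc (S c.out)} fun s t h => ?_
    generalize S c.out = P at h
    rcases P with _ | ⟨x, y, k⟩
    · rfl
    · exact congrArg (· - _) (pt_ext (Point.some_ne_zero _) (Point.some_ne_zero _)
        (h x (by simp)) (h y (by simp)))
  · rw [nsmul_sub, ← map_nsmul, hS, b1, sub_self]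
  · rw [act_eq, map_sub, Point.map_map, add_comm, sub_add_sub_cancel]
    rfl
  · obtain ⟨T, h1, h2⟩ := coh_of_eq e
    have h3 : ∀ s : Qb ≃ₐ[ℚ] Qb, Point.map (s : Qb →ₐ[ℚ] Qb) (S c.out - S c'.out - T) =
        S c.out - S c'.out - T := fun s => by
      have := h2 s
      rw [map_sub, map_sub]
      linear_combination (norm := module) this
    obtain ⟨x, hx⟩ := (InfiniteGalois.mem_range_algebraMap_iff_fixed (k := ℚ) _).2
      fun s => ((xc_map _ _).1.symm.trans (congrArg xc (h3 s)))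
    obtain ⟨y, hy⟩ := (InfiniteGalois.mem_range_algebraMap_iff_fixed (k := ℚ) _).2
      fun s => ((xc_map _ _).2.symm.trans (congrArg yc (h3 s)))
    obtain ⟨R, hR⟩ := mem_range_ptMap (j := algebraMap ℚ Qb) (V := W.toAffine) rfl hx.symm hy.symm
    rw [← c.out_eq, ← c'.out_eq]
    refine QuotientAddGroup.eq_iff_sub_mem.2 ⟨R, ptMap_injective (j := algebraMap ℚ Qb) rfl ?_⟩
    change b (n • R) = b _
    rw [map_nsmul, show b R = _ from hR, nsmul_sub, nsmul_sub, hS, hS, h1, sub_zero, map_sub]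

theorem div_tw (hd : d ≠ 0) (k : ℕ) (P : Pts (Wd d) Qb) : ∃ S, 2 ^ k • S = P := by
  obtain ⟨e, he⟩ := ex_e
  obtain ⟨ψ, p1, p2, -⟩ := ex_psi hd (KI.rt_sq d) (hcq d) e he
  induction k with
  | zero => exact ⟨P, by simp⟩
  | succ k ih =>
    obtain ⟨S, rfl⟩ := ih
    obtain ⟨R, hR⟩ := r1_thm.1.2.2.2.2.2 (ψ S)
    obtain ⟨R, rfl⟩ := (p2 R).1 (r1_thm.1.2.2.2.2.1 _ (hR ▸ (p2 _).2 ⟨S, rfl⟩))
    exact ⟨R, by rw [pow_succ, mul_smul, p1 ((map_nsmul ψ 2 R).trans hR)]⟩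

theorem pow_le {A : Type} [AddCommGroup A] [Module.Finite ℤ A] (n : ℕ) :
    n ^ Module.finrank ℤ A ∣ (nsmulAddMonoidHom (α := A) n).range.index := by
  set T := (AddCommGroup.torsion A).toIntSubmodule with hT
  have hT2 : T = Submodule.torsion ℤ A := by
    rw [hT, ← Submodule.torsion_int, Submodule.toAddSubgroup_toIntSubmodule]
  have : Module.IsTorsionFree ℤ (A ⧸ T) := by rw [hT2]; infer_instance
  have : Module.Free ℤ (A ⧸ T) := Module.free_of_finite_type_torsion_free'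
  rw [← finrank_quotient_torsion_eq, ← AddSubgroup.index_range_nsmul (A ⧸ T) n,
    ← AddSubgroup.index_comap_of_surjective _ (f := T.mkQ.toAddMonoidHom) T.mkQ_surjective]
  refine AddSubgroup.index_dvd_of_le ?_
  rintro _ ⟨y, rfl⟩
  exact ⟨T.mkQ y, (map_nsmul T.mkQ n y).symm⟩

/-- The theorem of Mordell for the twists, from the weak form. -/
theorem mordell (hd : d ≠ 0) [Infinite (Wd d).toAffine.Point]
    (h0 : (nsmulAddMonoidHom (α := (Wd d).toAffine.Point) 2).range.index ≠ 0) :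
    Module.Finite ℤ (Wd d).toAffine.Point ∧ Module.finrank ℤ (Wd d).toAffine.Point ≠ 0 := by
  obtain ⟨L, _, _, θ, hθ⟩ := Final.exists_cub
  have hdL : (d : L) ≠ 0 := Int.cast_ne_zero.2 hd
  have t := hθ.eq
  let U : Affine L := (Wd d).toAffine.map (algebraMap ℚ L)
  have : Infinite U.Point := Infinite.of_injective _ (ptMap_injective (V' := U) rfl)
  obtain ⟨a, ha⟩ : ∃ a : L, a = 3 * d * θ - 4 * d := ⟨_, rfl⟩
  obtain ⟨b, hb⟩ : ∃ b : L, b = d ^ 2 * fd θ := ⟨_, rfl⟩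
  have hC : (⟨1, -(d * θ), 0, 0⟩ : VariableChange L) • (Rk.cv a b).toAffine = U := by
    ext <;> simp [U, Wd, Rk.cv, variableChange_def, ha, hb, fd]
    · ring
    · ring
    · linear_combination -(d : L) ^ 3 * t
  have : (Rk.cv a b).IsElliptic := ⟨isUnit_iff_ne_zero.2 (by
    have : (Rk.cv a b).Δ = -(2 ^ 12 * 11 ^ 5 * (d : L) ^ 6) := by
      simp only [Rk.cv, Δ, b₂, b₄, b₆, b₈, ha, hb, fd]
      linear_combination d ^ 6 * (-432 * θ ^ 3 + 1728 * θ ^ 2 + 69120 * θ - 734464) * t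
    rw [this, neg_ne_zero]
    exact mul_ne_zero (by norm_num) (pow_ne_zero _ hdL))⟩
  let ι : (Wd d).toAffine.Point →+ Rk.G a b := (vcMap hC).comp (ptMap (algebraMap ℚ L) rfl)
  have hι : Function.Injective ι := (injective_iff_map_eq_zero _).2 fun P h =>
    by_contra fun k => (vcMap_spec hC (ptMap_ne rfl k)).1 h
  obtain ⟨C, hC⟩ := Rk.ht_par (a := a) (b := b)
  have : Northcott (Rk.ht ∘ ι) :=
    ⟨fun B => (Northcott.finite_le (h := Rk.ht) B).preimage hι.injOn⟩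
  have hD : ∀ P Q, |(Rk.ht ∘ ι) (P + Q) + (Rk.ht ∘ ι) (P - Q) -
      2 * ((Rk.ht ∘ ι) P + (Rk.ht ∘ ι) Q)| ≤ C := fun P Q => by
    simpa only [Function.comp_apply, map_add, map_sub] using hC (ι P) (ι Q)
  have hT := AddCommGroup.finite_torsion_of_descent' hD
  have := Module.Finite.iff_addGroup_fg.2
    (AddCommGroup.fg_of_descent' (h := Rk.ht ∘ ι) ⟨h0⟩ (fun P => logHeight_nonneg _) hD)
  refine ⟨this, fun h => not_finite_iff_infinite.2 ‹Infinite (Wd d).toAffine.Point›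
    (Finite.of_surjective (Subtype.val : AddCommGroup.torsion _ → _) fun P => ⟨⟨P, ?_⟩, rfl⟩)⟩
  obtain ⟨k, hk⟩ := Module.finrank_eq_zero_iff.1 h P
  exact isOfFinAddOrder_iff_zsmul_eq_zero.2 ⟨k, hk⟩

theorem rank_of (hd : d ≠ 0) (h : (Sel (Wd d) (2 ^ k)).encard < 4 ^ k) (hI : (Tw d).Infinite) :
    Module.Finite ℤ (Wd d).toAffine.Point ∧ Module.finrank ℤ (Wd d).toAffine.Point = 1 := by
  have : Infinite (Wd d).toAffine.Point := not_finite_iff_infinite.1 (mt (fin_iff hd).1 hI)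
  have h1 := (kummer _ _ (div_tw hd k)).trans_lt h
  have h2 := Set.finite_univ_iff.1 (Set.finite_of_encard_le_coe (k := 4 ^ k) (by
    exact_mod_cast h1.le))
  rw [Set.encard_univ, ENat.card_eq_coe_natCard] at h1
  have h3 : (nsmulAddMonoidHom (α := (Wd d).toAffine.Point) (2 ^ k)).range.index < 4 ^ k := by
    exact_mod_cast h1
  have h4 : (nsmulAddMonoidHom (α := (Wd d).toAffine.Point) (2 ^ k)).range.index ≠ 0 :=
    AddSubgroup.index_ne_zero_of_finite
  obtain ⟨k, rfl⟩ := Nat.exists_eq_succ_of_ne_zero (n := k) fun e => by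
    rw [e] at h3 h4
    omega
  obtain ⟨h5, h6⟩ := mordell hd (ne_zero_of_dvd_ne_zero h4 (AddSubgroup.index_dvd_of_le (by
    rintro _ ⟨P, rfl⟩
    exact ⟨2 ^ k • P, by simp [pow_succ', mul_smul]⟩)))
  have h7 := (Nat.le_of_dvd (Nat.pos_of_ne_zero h4) (pow_le _)).trans_lt h3
  rw [show 4 ^ k.succ = (2 ^ k.succ) ^ 2 by rw [← pow_mul, mul_comm, pow_mul]; rfl,
    Nat.pow_lt_pow_iff_right (Nat.one_lt_two_pow k.succ_ne_zero)] at h7
  exact ⟨h5, by omega⟩

theorem full (hM : KI.MainStmt) (hs : Squarefree d) (h4 : d % 4 = 1) (h3 : ¬ (3 : ℤ) ∣ d)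
    (hc : ¬ (11 : ℤ) ∣ d) (h : (Sel (Wd d) (2 ^ k)).encard < 4 ^ k) :
    Module.Finite ℤ (Wd d).toAffine.Point ∧ Module.finrank ℤ (Wd d).toAffine.Point ≤ 1 ∧
      HasRootNumber (Wd d) ((-1) ^ Module.finrank ℤ (Wd d).toAffine.Point) := by
  have m := hM d ⟨hs, h4, hc⟩ (bd_of hs.ne_zero h)
  have r := root hs h4 h3 hc
  by_cases hI : (Tw d).Infinite
  · obtain ⟨a, b⟩ := rank_of hs.ne_zero h hI
    rw [b, pow_one]
    exact ⟨a, le_rfl, m.1 hI ▸ r⟩
  · have := (fin_iff hs.ne_zero).2 (Set.not_infinite.1 hI)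
    have a : Module.finrank ℤ (Wd d).toAffine.Point = 0 :=
      Module.finrank_eq_zero_iff_isTorsion.2 (isAddTorsion_iff_isTorsion_int.1
        isAddTorsion_of_finite)
    have b := (jacobiSym.eq_one_or_neg_one (a := -11) (b := d.natAbs) (by
      rw [Int.neg_gcd]
      exact (Nat.Prime.coprime_iff_not_dvd (p := 11) (by norm_num)).2
        fun e => hc (Int.natCast_dvd.2 (by rwa [Int.natAbs_natCast] at e)))).resolve_right (mt m.2 hI)
    rw [a, pow_zero]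
    exact ⟨inferInstance, zero_le_one, b ▸ r⟩

end Pool.Agent.Lib.MP_02f36d_nt.X11
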