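import Pool.Agent.Lib.MP_d6ddbd_nt.K11.V1
import Pool.Agent.Lib.MP_d6ddbd_nt.K11.V2
import Pool.Agent.Lib.MP_d6ddbd_nt.K11.V4

/-! The Weil group of a place is dense in its decomposition group. -/

set_option autoImplicit false

open Pool.Agent.Lib.MP_d6ddbd_nt.K11 Pool.Agent.Lib.MP_9177b7_ag

noncomputable section

namespace Pool.Agent.Lib.MP_02f36d_nt.X11

variable {v : ℕ} {O : ValuationSubring ℂ} {σ φ : G}

theorem per (φ : G) (J : Finset ℂ) (hJ : ∀ x ∈ J, IsAlgebraic ℚ x) :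
    ∃ N : ℕ, N ≠ 0 ∧ ∀ c : ℕ, ∀ x ∈ J, (φ ^ (N * c)) x = x := by
  obtain ⟨K, _, _, _, j, hj⟩ := CM.Frob.exists_field J J.finite_toSet hJ
  obtain ⟨φ₀, h⟩ := V4.res j φ
  refine ⟨Nat.card (K ≃ₐ[ℚ] K), Nat.card_pos.ne', fun c x hx => ?_⟩
  obtain ⟨y, rfl⟩ := hj x hx
  rw [← V4.res_pow j h, pow_mul, pow_card_eq_one', one_pow, AlgEquiv.one_apply]

theorem frob_pow (h : Frob O v φ) (n : ℕ) : Frob O (v ^ n) (φ ^ n) := by
  induction n with
  | zero => exact fun x _ m => ⟨m, by simp⟩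
  | succ n ih =>
    rw [pow_succ, pow_succ]
    exact V2.c1 ih h

theorem lev (hv : v.Prime) (hO : Ov O v) (hσ : ∀ x, IsAlgebraic ℚ x → (σ x ∈ O ↔ x ∈ O))
    (J : Finset ℂ) : ∃ n : ℕ, ∀ x ∈ J, IsAlgebraic ℚ x → x ∈ O →
      σ x - x ^ v ^ n ∈ O.nonunits := by
  have : Fact v.Prime := ⟨hv⟩
  obtain ⟨K, _, _, _, j, hj⟩ := CM.Frob.exists_field {x | x ∈ J ∧ IsAlgebraic ℚ x}
    (J.finite_toSet.subset fun _ hx => hx.1) fun _ hx => hx.2
  obtain ⟨φ, hφ⟩ := V1.frob hv hO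
  obtain ⟨φ₀, h0⟩ := V4.res j φ
  obtain ⟨σ₀, h1⟩ := V4.res j σ
  have al : ∀ y : K, IsAlgebraic ℚ (j y) := fun y =>
    (Algebra.IsAlgebraic.isAlgebraic (R := ℚ) y).algHom j.toRatAlgHom
  let R := O.comap j
  have nu : ∀ a : R, IsLocalRing.residue R a = 0 ↔ j a ∈ O.nonunits := fun a => by
    rw [IsLocalRing.residue_eq_zero_iff, ← ValuationSubring.coe_mem_nonunits_iff,
      ValuationSubring.mem_nonunits_iff_or, ValuationSubring.mem_nonunits_iff_or,
      ValuationSubring.mem_comap, map_inv₀, map_eq_zero]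
  let f : R →+* R := ((σ₀ : K →+* K).comp R.subtype).codRestrict R fun a => by
    change j (σ₀ a) ∈ O
    rw [h1, hσ _ (al _)]
    exact a.2
  have hf : ∀ a : R, j (f a) = σ (j a) := fun a => h1 a
  have : IsLocalHom f := ⟨fun a ha => by
    by_contra hb
    have b1 := (nu a).1 ((IsLocalRing.residue_eq_zero_iff _).2 hb)
    refine (IsLocalRing.residue_eq_zero_iff _).1 ((nu (f a)).2 ?_) ha
    rw [hf]
    rw [ValuationSubring.mem_nonunits_iff_or] at b1 ⊢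
    rwa [map_eq_zero, ← map_inv₀, hσ _ (al _).inv]⟩
  have : CharP (IsLocalRing.ResidueField R) v := (CharP.charP_iff_prime_eq_zero hv).2 (by
    rw [← map_natCast (IsLocalRing.residue R), nu]
    simpa [Ov] using hO)
  have : Finite (IsLocalRing.ResidueField R) := by
    have p0 := FiniteField.X_pow_card_pow_sub_X_ne_zero (IsLocalRing.ResidueField R)
      (Nat.card_pos (α := K ≃ₐ[ℚ] K)).ne' hv.one_lt
    refine Set.finite_univ_iff.1 ((Polynomial.finite_setOfPred_isRoot p0).subset fun z _ => ?_)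
    obtain ⟨a, rfl⟩ := IsLocalRing.residue_surjective z
    have b1 := (frob_pow hφ (Nat.card (K ≃ₐ[ℚ] K)) (j a) (al _) a.2).2
    rw [← V4.res_pow j h0, pow_card_eq_one', AlgEquiv.one_apply] at b1
    have b2 := (nu (a ^ v ^ Nat.card (K ≃ₐ[ℚ] K) - a)).2 (by simpa using neg_mem b1)
    simpa using b2
  let _inst := ZMod.algebra (IsLocalRing.ResidueField R) v
  let g : IsLocalRing.ResidueField R →ₐ[ZMod v] IsLocalRing.ResidueField R :=
    { IsLocalRing.ResidueField.map f with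
      commutes' := fun z => DFunLike.congr_fun (RingHom.ext_zmod
        ((IsLocalRing.ResidueField.map f).comp (algebraMap (ZMod v) _)) (algebraMap (ZMod v) _)) z }
  obtain ⟨n, hn⟩ := FiniteField.exists_forall_apply_eq_pow (ZMod v) v _
    (AlgEquiv.ofBijective g (Finite.injective_iff_bijective.1 g.injective))
  refine ⟨n, fun x hx ha m => ?_⟩
  obtain ⟨y, rfl⟩ := hj x ⟨hx, ha⟩
  have b1 : IsLocalRing.residue R (f ⟨y, m⟩) = IsLocalRing.residue R ⟨y, m⟩ ^ v ^ n := by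
    have := hn (IsLocalRing.residue R ⟨y, m⟩)
    rw [Nat.card_zmod] at this
    exact this
  have b2 := (nu (f ⟨y, m⟩ - ⟨y, m⟩ ^ v ^ n)).1 (by rw [map_sub, map_pow, b1, sub_self])
  rw [← hf ⟨y, m⟩]
  simpa using b2

/-- An automorphism that preserves the place agrees on a finite set with an element of the Weil
group. -/
theorem dec (hv : v.Prime) (hO : Ov O v) (hσ : ∀ x, IsAlgebraic ℚ x → (σ x ∈ O ↔ x ∈ O))
    (J : Finset ℂ) (hJ : ∀ x ∈ J, IsAlgebraic ℚ x) :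
    ∃ (n : ℕ) (τ : G), Frob O (v ^ n) τ ∧ ∀ x ∈ J, τ x = σ x := by
  classical
  obtain ⟨φ, hφ⟩ := V1.frob hv hO
  choose n hn using lev hv hO hσ
  obtain ⟨N, N0, hN⟩ := per φ (J.image σ) fun x hx => by
    obtain ⟨y, hy, rfl⟩ := Finset.mem_image.1 hx
    exact V2.alg σ (hJ y hy)
  let U : Ultrafilter (Finset ℂ) := Ultrafilter.of Filter.atTop
  obtain ⟨r, -, hr⟩ := (Ultrafilter.eventually_exists_mem_iff (f := U)
    (P := fun r i => n i % N = r) (Set.finite_lt_nat N)).1 (Filter.Eventually.of_forall fun i =>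
      ⟨_, Nat.mod_lt _ (Nat.pos_of_ne_zero N0), rfl⟩)
  obtain ⟨τ, hτ⟩ := V1.lim U fun i => (φ ^ (N * (n i / N)))⁻¹ * σ
  have key : ∀ {i x}, ((φ ^ (N * (n i / N)))⁻¹ * σ) x = τ x → (φ ^ (N * (n i / N))) (τ x) = σ x :=
    fun h => by rw [← h]; exact (φ ^ _).apply_symm_apply _
  refine ⟨r, τ, fun x ha m => ?_, fun x hx => ?_⟩
  · obtain ⟨i, ⟨h1, h2⟩, h3⟩ := (((hτ x ha).and hr).and
      ((Filter.eventually_ge_atTop ({x} : Finset ℂ)).filter_mono (Ultrafilter.of_le _))).exists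
    have F := frob_pow hφ (N * (n i / N))
    have a1 : τ x ∈ O := (V2.c2 F (pow_ne_zero _ hv.ne_zero) (V2.alg τ ha)).1.1
      (by rw [key h1]; exact (hσ x ha).2 m)
    have a2 := sub_mem (hn i x (h3 (Finset.mem_singleton_self x)) ha m)
      (key h1 ▸ (F _ (V2.alg τ ha) a1).2)
    rw [sub_sub_sub_cancel_left] at a2
    refine ⟨a1, V2.sub_of_pow hv hO (N * (n i / N)) a1 (pow_mem m _) ?_⟩
    rwa [← pow_mul, ← pow_add, ← h2, Nat.mod_add_div]
  · obtain ⟨i, h1⟩ := (hτ x (hJ x hx)).exists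
    exact (φ ^ (N * (n i / N))).injective
      ((key h1).trans (hN _ _ (Finset.mem_image_of_mem _ hx)).symm)

end Pool.Agent.Lib.MP_02f36d_nt.X11
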