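import Pool.Agent.Lib.MP_02f36d_nt.X11.Sel
import Pool.Agent.Lib.MP_02f36d_nt.X11.Dec
import Pool.Agent.Lib.MP_02f36d_nt.X11.Root
import Pool.Agent.Lib.MP_d6ddbd_nt.K11.R1

/-! From cocycles on the automorphisms of `ℂ` to the Selmer groups of the twists. -/

set_option autoImplicit false

open WeierstrassCurve WeierstrassCurve.Affine
open Pool.Agent.Lib.MP_d6ddbd_nt.K11 Pool.Agent.Lib.MP_9177b7_ag
open scoped Classical

noncomputable section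

namespace Pool.Agent.Lib.MP_02f36d_nt.X11

/-- An algebraic closure of the rationals. -/
abbrev Qb : Type := AlgebraicClosure ℚ

/-- The points of `W` with coordinates in `F`. -/
abbrev Pts (W : WeierstrassCurve ℚ) (F : Type) [Field F] [Algebra ℚ F] : Type :=
  (W.toAffine.baseChange F).Point

theorem act_eq (W : WeierstrassCurve ℚ) (s : Qb ≃ₐ[ℚ] Qb) (P : Pts W Qb) :
    act W s P = Point.map (s : Qb →ₐ[ℚ] Qb) P := by
  cases P <;> rfl

theorem coh_of_eq {W : WeierstrassCurve ℚ} {n : ℕ} {x y : (Qb ≃ₐ[ℚ] Qb) → Pts W Qb}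
    (h : Quot.mk (Cohom W n) x = Quot.mk _ y) :
    ∃ T : Pts W Qb, n • T = 0 ∧ ∀ s, x s - y s = Point.map (s : Qb →ₐ[ℚ] Qb) T - T := by
  have e : Equivalence (Cohom W (F := Qb) n) := by
    refine ⟨fun x => ⟨0, nsmul_zero n, fun s => ?_⟩, fun ⟨T, a, b⟩ => ⟨-T, ?_, fun s => ?_⟩,
      fun ⟨T, a, b⟩ ⟨T', a', b'⟩ => ⟨T + T', ?_, fun s => ?_⟩⟩
    · rw [act_eq, map_zero, sub_self, sub_self]
    · rw [smul_neg, a, _root_.neg_zero]
    · rw [← neg_sub, b, act_eq, act_eq, map_neg, neg_sub_neg, neg_sub]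
    · rw [nsmul_add, a, a', add_zero]
    · rw [← sub_add_sub_cancel, b, b', act_eq, act_eq, act_eq, map_add, add_sub_add_comm]
  simpa only [Cohom, act_eq] using e.eqvGen_iff.1 (Quot.eqvGen_exact h)

/-- Cocycles for the action twisted by `χ` that are locally coboundaries of algebraic points. -/
structure ISel (χ : G → ℤ) (k : ℕ) (x : G → Pt) : Prop where
  tor : ∀ σ, 2 ^ k • x σ = 0
  mul : ∀ σ τ, x (σ * τ) = x σ + χ σ • σ • x τ
  fin : ∃ J : Finset ℂ, (∀ z ∈ J, IsAlgebraic ℚ z) ∧ ∀ σ : G, (∀ z ∈ J, σ z = z) → x σ = 0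
  loc : ∀ (v : ℕ) O, v.Prime → Ov O v → ∃ S, AlgP S ∧
    ∀ (n : ℕ) (σ : G), Frob O (v ^ n) σ → x σ = χ σ • σ • S - S

instance : IsAlgClosure ℚ Qb := AlgebraicClosure.instIsAlgClosure ℚ

theorem ex_e : ∃ e : Qb →ₐ[ℚ] ℂ, ∀ x, IsAlgebraic ℚ x → ∃ z, e z = x := by
  have : IsAlgClosure ℚ (algebraicClosure ℚ ℂ) := algebraicClosure.isAlgClosure ℚ ℂ
  let j := IsAlgClosure.equiv ℚ Qb (algebraicClosure ℚ ℂ)
  refine ⟨(algebraicClosure ℚ ℂ).val.comp j.toAlgHom, fun x hx =>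
    ⟨j.symm ⟨x, mem_algebraicClosure_iff.2 hx⟩, ?_⟩⟩
  exact congrArg Subtype.val (j.apply_symm_apply _)

theorem alg_e (e : Qb →ₐ[ℚ] ℂ) (z : Qb) : IsAlgebraic ℚ (e z) :=
  (Algebra.IsAlgebraic.isAlgebraic (R := ℚ) z).algHom e

theorem conj_e (e e' : Qb →ₐ[ℚ] ℂ) : ∃ σ : G, ∀ z, σ (e z) = e' z := by
  have : Countable Qb := Set.countable_univ_iff.1 ((Algebraic.countable ℚ Qb).mono
    fun z _ => Algebra.IsAlgebraic.isAlgebraic z)
  exact CM.ext Qb e e' e.injective e'.injective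

theorem res_e (e : Qb →ₐ[ℚ] ℂ) (σ : G) : ∃ s : Qb ≃ₐ[ℚ] Qb, ∀ z, σ (e z) = e (s z) := by
  let _inst := e.toRingHom.toAlgebra
  have : IsScalarTower ℚ Qb ℂ := IsScalarTower.of_algebraMap_eq' (Subsingleton.elim _ _)
  let σ' : ℂ ≃ₐ[ℚ] ℂ := { σ with commutes' := fun q => by simp }
  exact ⟨σ'.restrictNormal Qb, fun y => (AlgEquiv.restrictNormal_commutes σ' Qb y).symm⟩

theorem xc_map {W : WeierstrassCurve ℚ} {F F' : Type} [Field F] [Field F'] [Algebra ℚ F]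
    [Algebra ℚ F'] (f : F →ₐ[ℚ] F') (P : Pts W F) :
    xc (Point.map f P) = f (xc P) ∧ yc (Point.map f P) = f (yc P) := by
  rcases P with _ | ⟨x, y, h⟩
  · exact ⟨(map_zero f).symm, (map_zero f).symm⟩
  · exact ⟨rfl, rfl⟩

theorem sz0 (σ : G) : σ • (0 : Pt) = 0 := (smul_eq_zero' σ 0).2 rfl

variable {d : ℤ} {u : ℂ} {χ : G → ℤ}

theorem ne_u (hd : d ≠ 0) (hu : u ^ 2 = d) : u ≠ 0 :=
  ne_zero_pow two_ne_zero (hu ▸ Int.cast_ne_zero.2 hd)

theorem sgn (hd : d ≠ 0) (hu : u ^ 2 = d) (hχ : ∀ σ : G, σ u = χ σ * u) (σ : G) :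
    χ σ = 1 ∨ χ σ = -1 := by
  have u0 := ne_u hd hu
  refine (V2.sq_cases σ hu).imp (fun h => ?_) fun h => ?_
  · exact_mod_cast mul_right_cancel₀ u0 ((hχ σ).symm.trans (h.trans (one_mul u).symm))
  · exact_mod_cast mul_right_cancel₀ u0 ((hχ σ).symm.trans (h.trans (neg_one_mul u).symm))

theorem ex_psi (hd : d ≠ 0) (hu : u ^ 2 = d) (hχ : ∀ σ : G, σ u = χ σ * u) (e : Qb →ₐ[ℚ] ℂ)
    (he : ∀ x, IsAlgebraic ℚ x → ∃ z, e z = x) : ∃ ψ : Pts (Wd d) Qb →+ Pt,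
      Function.Injective ψ ∧ (∀ P, AlgP P ↔ ∃ Q, ψ Q = P) ∧
      ∀ (s : Qb ≃ₐ[ℚ] Qb) (σ : G), (∀ z, σ (e z) = e (s z)) →
        ∀ Q, ψ (Point.map (s : Qb →ₐ[ℚ] Qb) Q) = χ σ • σ • ψ Q := by
  have u0 := ne_u hd hu
  have ua := V2.alg_of_sq hu
  let U : Affine ℂ := ((Wd d).toAffine.baseChange Qb).toAffine.map (e : Qb →+* ℂ)
  let C : VariableChange ℂ := ⟨Units.mk0 u⁻¹ (inv_ne_zero u0), 0, 0, 0⟩
  have hC : C • EE = U := by
    ext <;> simp [U, C, Wd, EE, WeierstrassCurve.baseChange, variableChange_def, ← hu] <;> ring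
  have sE : Infinite EE.Point := infinite_pt (sep_of_c4 (Or.inl (by
    simp only [EE, c₄, b₂, b₄]
    norm_num)))
  have sU : Infinite U.Point := infinite_pt (sep_of_c4 (Or.inl (by
    rw [← hC, variableChange_c₄]
    refine mul_ne_zero (pow_ne_zero _ (Units.ne_zero _)) ?_
    simp only [EE, c₄, b₂, b₄]
    norm_num)))
  have sp : ∀ {Q : Pts (Wd d) Qb}, Q ≠ 0 → vcMap hC (ptMap (e : Qb →+* ℂ) rfl Q) ≠ 0 ∧
      xc (vcMap hC (ptMap (e : Qb →+* ℂ) rfl Q)) = u⁻¹ ^ 2 * e (xc Q) ∧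
      yc (vcMap hC (ptMap (e : Qb →+* ℂ) rfl Q)) = u⁻¹ ^ 3 * e (yc Q) := fun hQ => by
    obtain ⟨a, b, c⟩ := vcMap_spec hC (ptMap_ne (j := (e : Qb →+* ℂ)) rfl hQ)
    rw [yc_ptMap] at c
    rw [xc_ptMap] at b
    exact ⟨a, by simpa [C] using b, by simpa [C] using c⟩
  refine ⟨(vcMap hC).comp (ptMap (e : Qb →+* ℂ) rfl),
    (injective_iff_map_eq_zero _).2 fun Q h => by_contra fun k => (sp k).1 h,
    fun P => ⟨fun h => ?_, ?_⟩, fun s σ hs Q => ?_⟩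
  · by_cases h0 : P = 0
    · exact ⟨0, by rw [h0, map_zero]⟩
    have hC' : C⁻¹ • U = EE := by rw [← hC, inv_smul_smul]
    obtain ⟨-, b, c⟩ := vcMap_spec hC' h0
    obtain ⟨x, hx⟩ := he (u ^ 2 * xc P) ((ua.pow 2).mul h.1)
    obtain ⟨y, hy⟩ := he (u ^ 3 * yc P) ((ua.pow 3).mul h.2)
    obtain ⟨Q, hQ⟩ := mem_range_ptMap (j := (e : Qb →+* ℂ)) (V' := U) rfl (Q := vcMap hC' P)
      (x := x) (y := y) (by simpa [C, VariableChange.inv_def, hx] using b)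
      (by simpa [C, VariableChange.inv_def, hy] using c)
    exact ⟨Q, (congrArg (vcMap hC) hQ).trans (vcMap_inv hC hC' P)⟩
  · rintro ⟨Q, rfl⟩
    by_cases h0 : Q = 0
    · rw [h0, map_zero]
      exact r1_thm.1.1
    obtain ⟨-, b, c⟩ := sp h0
    exact ⟨b ▸ (ua.inv.pow 2).mul (alg_e e _), c ▸ (ua.inv.pow 3).mul (alg_e e _)⟩
  · by_cases h0 : Q = 0
    · rw [h0, map_zero, map_zero, sz0, zsmul_zero]
    have h1 : Point.map (s : Qb →ₐ[ℚ] Qb) Q ≠ 0 := fun h =>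
      h0 (Point.map_injective _ (h.trans (map_zero _).symm))
    obtain ⟨a, b, c⟩ := sp h0
    obtain ⟨a', b', c'⟩ := sp h1
    rw [(xc_map _ _).1] at b'
    rw [(xc_map _ _).2] at c'
    have a2 := mt (smul_eq_zero' σ _).1 a
    have hx := hχ σ
    change vcMap hC (ptMap _ rfl _) = χ σ • σ • vcMap hC (ptMap _ rfl _)
    rcases sgn hd hu hχ σ with h | h <;> rw [h] at hx ⊢
    · rw [one_smul]
      refine pt_ext a' a2 ?_ ?_
      · rw [b', xc_smul, b]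
        simp [hx, hs]
      · rw [c', yc_smul, c]
        simp [hx, hs]
    · rw [neg_one_smul]
      refine pt_ext a' (neg_ne_zero.2 a2) ?_ ?_
      · rw [b', xc_neg, xc_smul, b]
        simp [hx, hs]
      · rw [c', yc_neg a2, yc_smul, c]
        simp [hx, hs, EE]
        ring

theorem alg_tor {k : ℕ} {T : Pt} (h : AlgP (2 ^ k • T)) : AlgP T := by
  induction k with
  | zero => simpa using h
  | succ k ih => exact ih (r1_thm.1.2.2.2.2.1 _ (by rwa [smul_smul, ← pow_succ']))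

theorem tate {A : Type} [AddCommGroup A] (F : A →+ A) (hF : ∀ P, F (F P) = P) {T R : A}
    (hR : 2 • R = -T) (hT : 0 = T + F T)
    (hV : ∀ T', 2 • T' = 0 → F T' = T' → ∃ S, 2 • S = 0 ∧ T' = F S - S) :
    ∃ S, 2 • S = 0 ∧ T = F (R + S) - (R + S) := by
  have h := congrArg F hR
  rw [map_nsmul, map_neg] at h
  obtain ⟨S, h1, h2⟩ := hV (T - (F R - R)) (by linear_combination (norm := module) hR - h - hT) (by
    rw [map_sub, map_sub, hF]
    linear_combination (norm := module) h - hR)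
  exact ⟨S, h1, by rw [map_add]; linear_combination (norm := module) h2⟩

theorem fix_cj (g : G) (T : Pt) (h1 : 2 • T = 0) (h2 : (g⁻¹ * cj * g) • T = T) :
    ∃ S : Pt, 2 • S = 0 ∧ T = (g⁻¹ * cj * g) • S - S := by
  obtain ⟨-, -, b3, b4, ⟨e₁, e₂, e₃, c1, -, -, n23, c2, c3, c4, -⟩, -⟩ := r1_thm
  have f : ∀ z, z = e₁ ∨ z = e₂ ∨ z = e₃ → (0 : ℂ) ^ 2 = fc z := by
    rintro _ (rfl | rfl | rfl) <;> simp [c1]
  obtain ⟨p0, p1, p2⟩ := b3 e₁ 0 (f _ (by simp))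
  obtain ⟨q0, q1, q2⟩ := b3 e₂ 0 (f _ (by simp))
  obtain ⟨r0, r1, r2⟩ := b3 e₃ 0 (f _ (by simp))
  have m2 : 2 • pt e₂ 0 = 0 := (b4 _).2 (Or.inr ⟨q2, by rw [q1, ← f _ (by simp)]; simp⟩)
  have n2 : cj • pt e₂ 0 = pt e₃ 0 := pt_ext (mt (smul_eq_zero' _ _).1 q0) r0
    (by rw [xc_smul, q1, r1, c3]) (by rw [yc_smul, q2, r2, map_zero])
  by_cases h0 : T = 0
  · exact ⟨0, nsmul_zero 2, by rw [h0, sz0, sub_zero]⟩
  have g0 := mt (smul_eq_zero' g T).1 h0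
  have g1 : cj • g • T = g • T := by
    conv_rhs => rw [← h2]
    rw [smul_smul, smul_smul, mul_assoc, mul_inv_cancel_left]
  obtain ⟨g2, g3⟩ := ((b4 (g • T)).1 (by rw [smul_comm, h1, sz0])).resolve_left g0
  have g4 : cj (xc (g • T)) = xc (g • T) := by rw [← xc_smul, g1]
  have g5 : xc (g • T) = e₁ := by
    rw [c1, mul_eq_zero, mul_eq_zero, sub_eq_zero, sub_eq_zero, sub_eq_zero] at g3
    rcases g3 with (g3 | g3) | g3
    · exact g3
    · exact absurd (by rw [← c3, ← g3, g4]) n23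
    · refine absurd (cj.injective ?_) n23
      rw [c3, ← g3, g4]
  refine ⟨g⁻¹ • pt e₂ 0, by rw [smul_comm, m2, sz0], ?_⟩
  rw [mul_smul, mul_smul, smul_inv_smul, n2, ← c4, eq_sub_iff_add_eq, ← inv_smul_smul g T,
    pt_ext g0 p0 (g5.trans p1.symm) (g2.trans p2.symm)]
  exact (smul_add g⁻¹ (pt e₁ 0) (pt e₂ 0)).symm

namespace ISel

variable {k : ℕ} {x : G → Pt}

theorem congr (h : ISel χ k x) : ∃ J : Finset ℂ, (∀ z ∈ J, IsAlgebraic ℚ z) ∧
    ∀ σ τ : G, (∀ z ∈ J, σ z = τ z) → x σ = x τ := by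
  obtain ⟨J, h1, h2⟩ := h.fin
  refine ⟨J, h1, fun σ τ e => ?_⟩
  have := h.mul τ (τ⁻¹ * σ)
  rwa [mul_inv_cancel_left, h2 (τ⁻¹ * σ) fun z hz => ?_, sz0, zsmul_zero, add_zero] at this
  change τ.symm (σ z) = z
  rw [e z hz, RingEquiv.symm_apply_apply]

theorem alg (h : ISel χ k x) (σ : G) : AlgP (x σ) := alg_tor ((h.tor σ).symm ▸ r1_thm.1.1)

/-- The condition at the real place. -/
theorem real (hχ : ∀ σ, χ σ = 1 ∨ χ σ = -1) (h : ISel χ k x) (g : G) : ∃ S, AlgP S ∧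
    x (g⁻¹ * cj * g) = χ (g⁻¹ * cj * g) • (g⁻¹ * cj * g) • S - S := by
  obtain ⟨a0, a1, a2, -, a4, a5⟩ := r1_thm.1
  have t1 : (g⁻¹ * cj * g) * (g⁻¹ * cj * g) = 1 := by
    rw [mul_assoc, mul_assoc, mul_assoc, mul_inv_cancel_left, ← mul_assoc cj, cj_mul_cj, one_mul,
      inv_mul_cancel]
  have t2 := fix_cj g
  generalize g⁻¹ * cj * g = τ at t1 t2
  obtain ⟨J, -, h2⟩ := h.fin
  have t4 := h.mul τ τ
  rw [t1, h2 1 fun _ _ => rfl] at t4
  obtain ⟨R, hR⟩ := a5 (-x τ)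
  let F : Pt →+ Pt := χ τ • DistribSMul.toAddMonoidHom Pt τ
  have hF : ∀ P, F P = χ τ • τ • P := fun _ => rfl
  have hV : ∀ T : Pt, 2 • T = 0 → F T = τ • T := fun T hT => by
    rcases hχ τ with e | e <;> rw [hF, e]
    · rw [one_smul]
    · rw [neg_one_smul, neg_eq_iff_add_eq_zero, ← two_nsmul, smul_comm, hT, sz0]
  obtain ⟨S, h3, h4⟩ := tate F (fun P => by
    rcases hχ τ with e | e <;> rw [hF, hF, e]
    · rw [one_smul, one_smul, smul_smul, t1, one_smul]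
    · rw [neg_one_smul, neg_one_smul, smul_neg, neg_neg, smul_smul, t1, one_smul]) hR t4 fun T hT e => by
      obtain ⟨S, h3, h4⟩ := t2 T hT (hV T hT ▸ e)
      exact ⟨S, h3, (hV S h3).symm ▸ h4⟩
  exact ⟨_, a1 _ _ (a4 _ (hR ▸ a2 _ (h.alg τ))) (a4 _ (h3 ▸ a0)), h4⟩

/-- The condition on the whole decomposition group. -/
theorem dec (hu : u ^ 2 = d) (hd : d ≠ 0) (hχ : ∀ σ : G, σ u = χ σ * u) (h : ISel χ k x) {v : ℕ}
    {O : ValuationSubring ℂ} (hv : v.Prime) (hO : Ov O v) : ∃ S, AlgP S ∧ ∀ σ : G,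
      (∀ z, IsAlgebraic ℚ z → (σ z ∈ O ↔ z ∈ O)) → x σ = χ σ • σ • S - S := by
  obtain ⟨S, hS, h1⟩ := h.loc v O hv hO
  obtain ⟨J, h2, h3⟩ := h.congr
  refine ⟨S, hS, fun σ hσ => ?_⟩
  obtain ⟨n, τ, h4, h5⟩ := X11.dec hv hO hσ (insert u (insert (xc S) (insert (yc S) J))) (by
    simp only [Finset.forall_mem_insert]
    exact ⟨V2.alg_of_sq hu, hS.1, hS.2, h2⟩)
  simp only [Finset.forall_mem_insert] at h5
  have e1 : χ τ = χ σ := by
    exact_mod_cast mul_right_cancel₀ (ne_u hd hu) ((hχ τ).symm.trans (h5.1.trans (hχ σ)))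
  have e2 : τ • S = σ • S := act_ext (by simp only [smul_eq_zero'])
    (by rw [xc_smul, xc_smul, h5.2.1]) (by rw [yc_smul, yc_smul, h5.2.2.1])
  rw [← h3 τ σ h5.2.2.2, h1 n τ h4, e1, e2]

end ISel

theorem ex_place (e : Qb →ₐ[ℚ] ℂ) (R : ValuationSubring Qb) :
    ∃ O : ValuationSubring ℂ, ∀ z, e z ∈ O ↔ z ∈ R := by
  let f : R →+* ℂ := (e : Qb →+* ℂ).comp R.subtype
  have hf : Function.Bijective f.rangeRestrict :=
    ⟨fun a b h => Subtype.ext (e.injective (congrArg Subtype.val h)), f.rangeRestrict_surjective⟩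
  obtain ⟨O, h1, h2⟩ := Ideal.image_subset_nonunits_valuationSubring
    ((IsLocalRing.maximalIdeal R).map f.rangeRestrict) fun h =>
      (IsLocalRing.maximalIdeal.isMaximal R).ne_top (by
        rw [← Ideal.comap_map_of_bijective f.rangeRestrict hf (I := IsLocalRing.maximalIdeal R), h,
          Ideal.comap_top])
  refine ⟨O, fun z => ⟨fun h => by_contra fun k => ?_, fun h => h1 ⟨⟨z, h⟩, rfl⟩⟩⟩
  have k1 := R.inv_mem_nonunits_iff.2 (Or.inr k)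
  have k2 : e z⁻¹ ∈ O.nonunits := h2 ⟨_, Ideal.mem_map_of_mem _
    (ValuationSubring.mem_nonunits_iff_exists_mem_maximalIdeal.1 k1).2, rfl⟩
  rw [map_inv₀, O.inv_mem_nonunits_iff, map_eq_zero] at k2
  exact k2.elim (fun e => k (e ▸ zero_mem _)) fun e => e h

theorem loc_of {W : WeierstrassCurve ℚ} {K F : Type} [Field K] [Field F] [CharZero F]
    [DecidableEq F] [Algebra K F] {y : (Qb ≃ₐ[ℚ] Qb) → Pts W Qb} (h : ∀ ι : Qb →ₐ[ℚ] F, ∃ S, ∀ (σ : F ≃ₐ[K] F)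
      (s : Qb ≃ₐ[ℚ] Qb), (∀ z, ι (s z) = σ (ι z)) → y s = Point.map (s : Qb →ₐ[ℚ] Qb) S - S) :
    LocTriv W K F y := fun ι => by
  obtain ⟨S, hS⟩ := h ι.toRatAlgHom
  refine ⟨Point.map ι.toRatAlgHom S, fun σ s e => ?_⟩
  rw [hS σ s e, act, act, map_sub, Point.map_map, Point.map_map]
  congr 3
  exact AlgHom.ext e

theorem lc_of {A : Type} {y : (Qb ≃ₐ[ℚ] Qb) → A} (J : Finset Qb)
    (h : ∀ s t : Qb ≃ₐ[ℚ] Qb, (∀ z ∈ J, s z = t z) → y s = y t) : IsLocallyConstant y := by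
  refine (IsLocallyConstant.iff_eventually_eq y).2 fun t => ?_
  have : ∀ z ∈ J, ∀ᶠ s : Qb ≃ₐ[ℚ] Qb in nhds t, s z = t z := fun z _ =>
    Filter.mem_of_superset (((stabilizer_isOpen_of_isIntegral (K := ℚ) z).preimage
      (continuous_const_mul t⁻¹)).mem_nhds (by simp)) fun s hs => by
        have : t.symm (s z) = z := hs
        exact (t.symm_apply_eq.1 this)
  exact ((Filter.eventually_all_finset J).2 this).mono fun s hs => h s t hs

/-- The internal Selmer classes inject into the Selmer group. -/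
theorem bridge (hd : d ≠ 0) (hu : u ^ 2 = d) (hχ : ∀ σ : G, σ u = χ σ * u) (k : ℕ) :
    ∃ Φ : (G → Pt) → Quot (Cohom (Wd d) (F := Qb) (2 ^ k)),
      (∀ x, ISel χ k x → Φ x ∈ Sel (Wd d) (2 ^ k)) ∧ ∀ x y, ISel χ k x → ISel χ k y → Φ x = Φ y →
        ∃ T : Pt, 2 ^ k • T = 0 ∧ ∀ σ, x σ - y σ = χ σ • σ • T - T := by
  obtain ⟨e, he⟩ := ex_e
  obtain ⟨ψ, p1, p2, p3⟩ := ex_psi hd hu hχ e he
  choose l hl using fun s : Qb ≃ₐ[ℚ] Qb => conj_e e (e.comp (s : Qb →ₐ[ℚ] Qb))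
  have key : ∀ {x}, ISel χ k x → ∀ (s : Qb ≃ₐ[ℚ] Qb) (σ : G), (∀ z, σ (e z) = e (s z)) →
      ψ (Function.invFun ψ (x (l s))) = x σ := fun {x} h s σ hs => by
    obtain ⟨J, h1, h2⟩ := h.congr
    rw [Function.invFun_eq ((p2 _).1 (h.alg _))]
    refine h2 _ _ fun z hz => ?_
    obtain ⟨z, rfl⟩ := he z (h1 z hz)
    exact (hl s z).trans (hs z).symm
  refine ⟨fun x => Quot.mk _ fun s => Function.invFun ψ (x (l s)),
    fun x h => ⟨_, ⟨⟨?_, fun s => p1 ?_, fun s t => p1 ?_⟩, loc_of fun ι => ?_,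
      fun p _ => loc_of fun ι => ?_⟩, rfl⟩, fun x y hx hy h => ?_⟩
  · obtain ⟨J, h1, h2⟩ := h.congr
    refine lc_of (J.preimage e e.injective.injOn) fun s t hs => congrArg _ (h2 _ _ fun z hz => ?_)
    obtain ⟨z, rfl⟩ := he z (h1 z hz)
    rw [hl, hl]
    exact congrArg e (hs z (Finset.mem_preimage.2 hz))
  · rw [map_nsmul, key h s _ (hl s), h.tor, map_zero]
  · rw [key h (s * t) (l s * l t) fun z => (congrArg (l s) (hl t z)).trans (hl s _), map_add,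
      act_eq, p3 s _ (hl s), key h s _ (hl s), key h t _ (hl t), h.mul]
  · obtain ⟨g, hg⟩ := conj_e e ι
    obtain ⟨S, h1, h2⟩ := h.real (sgn hd hu hχ) g
    obtain ⟨S, rfl⟩ := (p2 S).1 h1
    refine ⟨S, fun σ s hs => p1 ?_⟩
    rcases Complex.real_algHom_eq_id_or_conj σ with c | c
    · obtain rfl : s = 1 := AlgEquiv.ext fun z => ι.injective
        ((hs z).trans (DFunLike.congr_fun c _))
      obtain ⟨J, -, h3⟩ := h.fin
      rw [key h 1 1 fun _ => rfl, h3 1 fun _ _ => rfl, eq_comm, map_eq_zero_iff ψ p1, sub_eq_zero]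
      cases S <;> rfl
    · have c1 : ∀ z, (g⁻¹ * cj * g) (e z) = e (s z) := fun z => by
        change g.symm (cj (g (e z))) = _
        rw [g.symm_apply_eq, hg, hg, hs]
        exact (DFunLike.congr_fun c _).symm
      rw [key h s _ c1, h2, map_sub, p3 s _ c1]
  · obtain ⟨O, hO⟩ := ex_place e
      ((Valued.v (R := PadicAlgCl p)).valuationSubring.comap (ι : Qb →+* PadicAlgCl p))
    have n : ∀ z, e z ∈ O ↔ ‖ι z‖ ≤ 1 := fun z => (hO z).trans Iff.rfl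
    have hp : p.Prime := Fact.out
    have c : Ov O p := by
      rw [Ov, O.mem_nonunits_iff_or, ← map_natCast e, ← map_inv₀, n, map_inv₀, map_natCast ι,
        norm_inv, ← map_natCast (algebraMap ℚ_[p] (PadicAlgCl p)), PadicAlgCl.norm_extends,
        Padic.norm_p, inv_inv, not_le]
      exact Or.inr (by exact_mod_cast hp.one_lt)
    obtain ⟨S, h1, h2⟩ := h.dec hu hd hχ hp c
    obtain ⟨S, rfl⟩ := (p2 S).1 h1
    refine ⟨S, fun σ s hs => p1 ?_⟩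
    rw [key h s _ (hl s), h2 _ fun z hz => ?_, map_sub, p3 s _ (hl s)]
    obtain ⟨z, rfl⟩ := he z hz
    rw [hl]
    change e (s z) ∈ O ↔ _
    rw [n, n, hs, ← PadicAlgCl.spectralNorm_eq, ← spectralNorm_eq_of_equiv,
      PadicAlgCl.spectralNorm_eq]
  · obtain ⟨T, h1, h2⟩ := coh_of_eq h
    refine ⟨ψ T, by rw [← map_nsmul, h1, map_zero], fun σ => ?_⟩
    obtain ⟨s, hs⟩ := res_e e σ
    rw [← key hx s σ hs, ← key hy s σ hs, ← map_sub, ← p3 s σ hs, ← map_sub]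
    exact congrArg ψ (h2 s)

end Pool.Agent.Lib.MP_02f36d_nt.X11
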