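import Mathlib

/-! The Selmer groups of an elliptic curve over the rationals, in Galois cohomology. -/

set_option autoImplicit false

open WeierstrassCurve WeierstrassCurve.Affine

noncomputable section

namespace Pool.Agent.Lib.MP_02f36d_nt.X11

variable (W : WeierstrassCurve ℚ) {F F' : Type} [Field F] [Field F'] [CharZero F] [CharZero F']
  [DecidableEq F] [DecidableEq F']

/-- The map on points induced by a field homomorphism. -/
def act (f : F →+* F') (P : (W.toAffine.baseChange F).Point) : (W.toAffine.baseChange F').Point :=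
  Point.map f.toRatAlgHom P

/-- Continuous cocycles on the Galois group of `F` with values in the points killed by `n`. -/
def Cocycle (n : ℕ) (x : (F ≃ₐ[ℚ] F) → (W.toAffine.baseChange F).Point) : Prop :=
  IsLocallyConstant x ∧ (∀ s, n • x s = 0) ∧ ∀ s t, x (s * t) = x s + act W s (x t)

/-- The cocycles differ by the coboundary of a point killed by `n`. -/
def Cohom (n : ℕ) (x y : (F ≃ₐ[ℚ] F) → (W.toAffine.baseChange F).Point) : Prop :=
  ∃ T : (W.toAffine.baseChange F).Point, n • T = 0 ∧ ∀ s, x s - y s = act W s T - T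

/-- The cocycle `x` becomes the coboundary of a point over the algebraic closure `F'` of the
completion `K`, for every embedding of `F` in `F'`. -/
def LocTriv (K F' : Type) [Field K] [Field F'] [CharZero F'] [DecidableEq F'] [Algebra K F']
    (x : (F ≃ₐ[ℚ] F) → (W.toAffine.baseChange F).Point) : Prop :=
  ∀ ι : F →+* F', ∃ S : (W.toAffine.baseChange F').Point, ∀ (σ : F' ≃ₐ[K] F') (s : F ≃ₐ[ℚ] F),
    (∀ z, ι (s z) = σ (ι z)) → act W ι (x s) = act W σ S - S

open Classical in
/-- The `n`-Selmer group: the classes of the cocycles that become coboundaries at all places. -/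
def Sel (n : ℕ) : Set (Quot (Cohom W (F := AlgebraicClosure ℚ) n)) :=
  Quot.mk _ '' {x | Cocycle W n x ∧ LocTriv W ℝ ℂ x ∧
    ∀ (p : ℕ) [Fact p.Prime], LocTriv W ℚ_[p] (AlgebraicClosure ℚ_[p]) x}

end Pool.Agent.Lib.MP_02f36d_nt.X11
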